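import Mathlib
import Pool.Agent.MagicSquares.Main

set_option autoImplicit false
open Finset

namespace Pool.Agent.Results.MP_b601b9_co.PositiveFraction

/-- `M n k` is the set of `n × n` matrices with nonnegative integer entries in which every row
sum and every column sum equals `k`. -/
def M (n k : ℕ) : Set (Matrix (Fin n) (Fin n) ℕ) :=
  {A | (∀ i, ∑ j, A i j = k) ∧ ∀ j, ∑ i, A i j = k}

/-- `P n k` is the proportion of the matrices in the finite set `M n k` all of whose entries
are at least `1`. -/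
noncomputable def P (n k : ℕ) : ℝ :=
  ({A ∈ M n k | ∀ i j, 1 ≤ A i j}.ncard : ℝ) / ((M n k).ncard : ℝ)

/-- matrix with prescribed entries -/
def toMat (n : ℕ) (f : Fin n × Fin n → ℕ) : Matrix (Fin n) (Fin n) ℕ :=
  Matrix.of (fun i j => f (i, j))

lemma toMat_inj (n : ℕ) : Function.Injective (toMat n) := by
  intro f g hfg
  funext e
  exact congrFun (congrFun hfg e.1) e.2

lemma ncard_M (n k : ℕ) : (M n k).ncard = (Pool.Agent.MagicSquares.Mag n k).card := by
  have h : M n k = toMat n '' (Pool.Agent.MagicSquares.Mag n k : Set (Fin n × Fin n → ℕ)) := by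
    ext A
    constructor
    · rintro ⟨h1, h2⟩
      refine ⟨fun e => A e.1 e.2, ?_, rfl⟩
      rw [mem_coe, Pool.Agent.MagicSquares.mem_Mag]
      exact ⟨h1, h2⟩
    · rintro ⟨f, hf, rfl⟩
      rw [mem_coe, Pool.Agent.MagicSquares.mem_Mag] at hf
      exact hf
  rw [h, Set.ncard_image_of_injective _ (toMat_inj n), Set.ncard_coe_finset]

lemma ncard_pos (n k : ℕ) : {A ∈ M n k | ∀ i j, 1 ≤ A i j}.ncard
    = ((Pool.Agent.MagicSquares.Mag n k).filter (fun A => ∀ e, 1 ≤ A e)).card := by
  have h : {A ∈ M n k | ∀ i j, 1 ≤ A i j} = toMat n ''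
      ((Pool.Agent.MagicSquares.Mag n k).filter (fun A => ∀ e, 1 ≤ A e) :
        Set (Fin n × Fin n → ℕ)) := by
    ext A
    constructor
    · rintro ⟨⟨h1, h2⟩, h3⟩
      refine ⟨fun e => A e.1 e.2, ?_, rfl⟩
      rw [mem_coe, mem_filter, Pool.Agent.MagicSquares.mem_Mag]
      exact ⟨⟨h1, h2⟩, fun e => h3 e.1 e.2⟩
    · rintro ⟨f, hf, rfl⟩
      rw [mem_coe, mem_filter, Pool.Agent.MagicSquares.mem_Mag] at hf
      exact ⟨hf.1, fun i j => hf.2 (i, j)⟩
  rw [h, Set.ncard_image_of_injective _ (toMat_inj n), Set.ncard_coe_finset]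

/-- For every `n ≥ 2` the sequence `k ↦ P n k` is strictly increasing on `k ≥ n`. -/
theorem result : ∀ n k : ℕ, 2 ≤ n → n ≤ k → P n k < P n (k + 1) := by
  intro n k hn hk
  unfold P
  rw [ncard_M, ncard_M, ncard_pos, ncard_pos]
  exact Pool.Agent.MagicSquares.main hn hk

end Pool.Agent.Results.MP_b601b9_co.PositiveFraction
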